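import Pool.Agent.H30WD.Basic

/-!
The abstract situation: the annuli, the discs, and the position of the wandering components.
-/

set_option autoImplicit false

open Filter Topology Metric Set

namespace Pool.Agent.H30WD

open Pool.Agent.H384R2.Fatou Pool.Agent.W723.MC

theorem comp_of_closure {O : Set ℂ} {z x : ℂ} (hO : IsOpen O)
    (h : x ∈ closure (connectedComponentIn O z)) (hx : x ∈ O) :
    x ∈ connectedComponentIn O z := by
  have h1 : connectedComponentIn O x ∈ 𝓝 x :=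
    hO.connectedComponentIn.mem_nhds (mem_connectedComponentIn hx)
  obtain ⟨y, hy1, hy2⟩ := mem_closure_iff_nhds.1 h _ h1
  rw [connectedComponentIn_eq hy2, ← connectedComponentIn_eq hy1]
  exact mem_connectedComponentIn hx

/-- a component of an open set on which an open map behaves like a proper map covers the target -/
theorem onto_comp {g : ℂ → ℂ} (hg : Continuous g)
    (hopen : ∀ s : Set ℂ, IsOpen s → IsOpen (g '' s))
    {O V : Set ℂ} {z : ℂ} (hO : IsOpen O) (hz : z ∈ O) (hV : IsPreconnected V) (hzV : g z ∈ V)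
    (hb : Bornology.IsBounded (connectedComponentIn O z))
    (hx : ∀ x ∈ closure (connectedComponentIn O z), g x ∈ V → x ∈ O) :
    V ⊆ g '' connectedComponentIn O z := by
  have hWo : IsOpen (connectedComponentIn O z) := hO.connectedComponentIn
  have hWc : IsCompact (closure (connectedComponentIn O z)) := hb.isCompact_closure
  apply hV.subset_of_closure_inter_subset (hopen _ hWo)
  · exact ⟨g z, hzV, z, mem_connectedComponentIn hz, rfl⟩
  · rintro y ⟨hy, hyV⟩
    have h2 : closure (g '' connectedComponentIn O z) ⊆ g '' closure (connectedComponentIn O z) :=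
      closure_minimal (image_mono subset_closure) (hWc.image hg).isClosed
    obtain ⟨x, hxc, rfl⟩ := h2 hy
    exact ⟨x, comp_of_closure hO hxc (hx x hxc hyV), rfl⟩

/-- a connected set with a point in the disc of radius `b` which misses the annulus between `a` and
`b` lies in the closed disc of radius `a` -/
theorem annulus_split {S : Set ℂ} (hS : IsPreconnected S) {a b : ℝ} (hab : a < b) {z : ℂ}
    (hz : z ∈ S) (hzb : ‖z‖ < b) (hd : ∀ y ∈ S, ¬ (a < ‖y‖ ∧ ‖y‖ < b)) : ∀ y ∈ S, ‖y‖ ≤ a := by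
  intro y hy
  have hza : ‖z‖ ≤ a := by
    by_contra h
    push Not at h
    exact hd z hz ⟨h, hzb⟩
  by_contra hcon
  push Not at hcon
  have h1 := hS.intermediate_value hz hy (f := fun z : ℂ => ‖z‖) (by fun_prop)
  have h2 : min ‖y‖ ((a + b) / 2) ∈ Icc ‖z‖ ‖y‖ :=
    ⟨le_min (hza.trans hcon.le) (by linarith), min_le_left _ _⟩
  obtain ⟨w, hw, hw2⟩ := h1 h2
  refine hd w hw ⟨?_, ?_⟩
  · have : ‖w‖ = min ‖y‖ ((a + b) / 2) := hw2
    rw [this]
    exact lt_min hcon (by linarith)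
  · have : ‖w‖ = min ‖y‖ ((a + b) / 2) := hw2
    rw [this]
    exact lt_of_le_of_lt (min_le_right _ _) (by linarith)

/-- the abstract data -/
structure TD (f : ℂ → ℂ) (B G H : ℕ → Set ℂ) (c p : ℕ → ℂ) (δ R α β : ℕ → ℝ) : Prop where
  hf : Differentiable ℂ f
  hopen : ∀ s : Set ℂ, IsOpen s → IsOpen (f '' s)
  hf0 : f 0 = 0
  hα : Tendsto α atTop atTop
  hα16 : ∀ k, 16 ≤ α k
  hB : ∀ k, B k = {z | α k < ‖z‖ ∧ ‖z‖ < β k}
  hαβ : ∀ k, α k < β k
  hβα : ∀ k, β k ≤ α (k + 1)
  hBB : ∀ k, MapsTo f (B k) (B (k + 1))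
  hBG : ∀ k, B k ⊆ G k
  hGc : ∀ k, IsPreconnected (G k)
  hGB : ∀ k, MapsTo f (G k) (B (k + 1))
  hp : ∀ k, p k ∈ B k
  hHc : ∀ k, IsPreconnected (H k)
  hHs : ∀ k, sphere (c k) (R k) ⊆ H k
  hHG : ∀ k, (H k ∩ G k).Nonempty
  hHf : ∀ k, MapsTo f (H k) (G (k + 1))
  hδ : ∀ k, 1 ≤ δ k
  hδα : ∀ k, δ k ≤ α k
  hcα : ∀ k, ‖c k‖ ≤ α k
  hR : ∀ k, 0 < R k
  hΔ : ∀ k, MapsTo f (ball (c k) (δ k)) (ball (c (k + 1)) (δ (k + 1)))
  hΔm : ∀ k, ∀ z ∈ ball (c k) (δ k), α k ≤ 4 * ‖z‖
  hRm : ∀ k, ∀ z ∈ ball (c k) (R k), α k ≤ 4 * ‖z‖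
  hpo : ∀ k, p (k + 1) ∉ f '' (ball (c k) (R k))
  hup : ∀ k, ∀ z : ℂ, ‖z‖ ≤ β k → ‖f z‖ < β (k + 1)
  hsep : ∀ k, ∀ C : ℝ, ∃ᶠ n in atTop,
      C * Real.log ‖f^[n] (c k)‖ < Real.log ‖f^[n] (p k)‖
  hsep2 : ∀ j k, j + 2 ≤ k → ∀ C : ℝ, ∃ᶠ n in atTop,
      C * Real.log ‖f^[n] (p j)‖ < Real.log ‖f^[n] (p k)‖

namespace TD

variable {f : ℂ → ℂ} {B G H : ℕ → Set ℂ} {c p : ℕ → ℂ} {δ R α β : ℕ → ℝ}

section
variable (h : TD f B G H c p δ R α β)
include h

theorem hfc : Continuous f := h.hf.continuous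

theorem hδ0 (k : ℕ) : 0 < δ k := by linarith [h.hδ k]

theorem mem_B {k : ℕ} {z : ℂ} : z ∈ B k ↔ α k < ‖z‖ ∧ ‖z‖ < β k := by rw [h.hB]; rfl

theorem hBo (k : ℕ) : IsOpen (B k) := by
  rw [h.hB]
  exact (isOpen_lt continuous_const continuous_norm).inter
    (isOpen_lt continuous_norm continuous_const)

theorem iter_maps {X : ℕ → Set ℂ} (h1 : ∀ k, MapsTo f (X k) (X (k + 1))) (k n : ℕ) :
    MapsTo f^[n] (X k) (X (k + n)) := by
  induction n with
  | zero => intro x hx; simpa using hx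
  | succ n ih =>
    intro x hx
    rw [Function.iterate_succ_apply']
    exact h1 _ (ih hx)

theorem esc_of {X : ℕ → Set ℂ} (h1 : ∀ k, MapsTo f (X k) (X (k + 1)))
    (h2 : ∀ k, ∀ z ∈ X k, α k ≤ 4 * ‖z‖) (k : ℕ) : EscOn f (X k) := by
  intro T
  have h4 : Tendsto (fun n => α (k + n)) atTop atTop :=
    h.hα.comp (tendsto_add_atTop_nat k |>.congr fun n => by ring)
  filter_upwards [h4.eventually_ge_atTop (4 * T)] with n hn z hz
  have := h2 _ _ (h.iter_maps h1 k n hz)
  linarith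

theorem Besc (k : ℕ) : EscOn f (B k) := h.esc_of h.hBB (fun k z hz => by
  have h1 := (h.mem_B.1 hz).1
  have h2 := norm_nonneg z
  linarith) k

theorem Δesc (k : ℕ) : EscOn f (ball (c k) (δ k)) :=
  h.esc_of (X := fun k => ball (c k) (δ k)) h.hΔ h.hΔm k

theorem BF (k : ℕ) : B k ⊆ FatouSet f := subset_fatou_of_escOn (h.Besc k) (h.hBo k)

theorem ΔF (k : ℕ) : ball (c k) (δ k) ⊆ FatouSet f :=
  subset_fatou_of_escOn (h.Δesc k) isOpen_ball

theorem GF (k : ℕ) : G k ⊆ FatouSet f := fun _ hz => fatou_backward h.hfc (h.BF _ (h.hGB k hz))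

theorem HF (k : ℕ) : H k ⊆ FatouSet f := fun _ hz => fatou_backward h.hfc (h.GF _ (h.hHf k hz))

theorem pF (k : ℕ) : p k ∈ FatouSet f := h.BF k (h.hp k)

theorem pn (k : ℕ) : B k ∈ 𝓝 (p k) := (h.hBo k).mem_nhds (h.hp k)

theorem pU (k : ℕ) : p k ∈ FatouComponent f (p k) := mem_connectedComponentIn (h.pF k)

theorem GU (k : ℕ) : G k ⊆ FatouComponent f (p k) :=
  (h.hGc k).subset_connectedComponentIn (h.hBG k (h.hp k)) (h.GF k)

theorem BU (k : ℕ) : B k ⊆ FatouComponent f (p k) := (h.hBG k).trans (h.GU k)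

theorem HU (k : ℕ) : H k ⊆ FatouComponent f (p k) := by
  obtain ⟨x, hxH, hxG⟩ := h.hHG k
  have h1 : IsPreconnected (H k ∪ G k) := (h.hHc k).union x hxH hxG (h.hGc k)
  exact (subset_union_left).trans (h1.subset_connectedComponentIn
    (Or.inr (h.hBG k (h.hp k))) (union_subset (h.HF k) (h.GF k)))

theorem UU (k : ℕ) : MapsTo f (FatouComponent f (p k)) (FatouComponent f (p (k + 1))) := by
  intro x hx
  have h1 := component_map h.hfc h.hopen (h.pF k) 1
  have h2 : f x ∈ FatouComponent f (f (p k)) := h1 ⟨x, hx, rfl⟩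
  have h3 : f (p k) ∈ FatouComponent f (p (k + 1)) := h.BU _ (h.hBB k (h.hp k))
  rwa [← comp_eq h3] at h2

theorem cU (k : ℕ) : c k ∉ FatouComponent f (p k) := by
  intro hk
  obtain ⟨C, hC, h1⟩ := growth_compare h.hf (h.pF k) (h.pn k) (h.Besc k) hk
  obtain ⟨n, h2, h3⟩ := ((h.hsep k C).and_eventually h1).exists
  linarith [h3.2]

theorem Une2 (j k : ℕ) (hjk : j + 2 ≤ k) : FatouComponent f (p j) ≠ FatouComponent f (p k) := by
  intro he
  have h1 : p k ∈ FatouComponent f (p j) := by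
    have := h.pU k
    rwa [← he] at this
  obtain ⟨C, hC, h2⟩ := growth_compare h.hf (h.pF j) (h.pn j) (h.Besc j) h1
  obtain ⟨n, h3, h4⟩ := ((h.hsep2 j k hjk C).and_eventually h2).exists
  linarith [h4.1]

theorem Une1 (j : ℕ) : FatouComponent f (p j) ≠ FatouComponent f (p (j + 1)) := by
  intro he
  have h1 : f (p j) ∈ FatouComponent f (p (j + 1)) := h.UU j (h.pU j)
  have h2 : f (p j) ∈ FatouComponent f (p (j + 1 + 1)) := by
    apply h.UU (j + 1)
    rw [← he]
    exact h.pU j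
  have h3 : FatouComponent f (p (j + 1)) = FatouComponent f (p (j + 1 + 1)) :=
    comp_eq_of_mem h1 h2
  exact h.Une2 j (j + 2) le_rfl (he.trans h3)

theorem Une (j k : ℕ) (hjk : j ≠ k) : FatouComponent f (p j) ≠ FatouComponent f (p k) := by
  have key : ∀ j k, j < k → FatouComponent f (p j) ≠ FatouComponent f (p k) := by
    intro j k hjk
    rcases Nat.lt_or_ge k (j + 2) with h1 | h1
    · have : k = j + 1 := by omega
      rw [this]; exact h.Une1 j
    · exact h.Une2 j k h1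
  rcases lt_or_gt_of_ne hjk with h1 | h1
  · exact key j k h1
  · exact (key k j h1).symm

theorem ΔU (k : ℕ) : ball (c k) (δ k) ⊆ (FatouComponent f (p k))ᶜ := by
  intro x hx hxU
  have h1 : ball (c k) (δ k) ⊆ FatouComponent f x :=
    (convex_ball _ _).isPreconnected.subset_connectedComponentIn hx (h.ΔF k)
  have h2 := h1 (mem_ball_self (h.hδ0 k))
  rw [← comp_eq hxU] at h2
  exact h.cU k h2

theorem ΔK (k : ℕ) : ball (c k) (δ k) ⊆ cpl (FatouComponent f (p k)) (c k) :=
  sub_cpl (convex_ball _ _).isPreconnected (mem_ball_self (h.hδ0 k)) (h.ΔU k)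

theorem cK (k : ℕ) : c k ∈ cpl (FatouComponent f (p k)) (c k) := mem_cpl (h.cU k)

theorem KR (k : ℕ) : cpl (FatouComponent f (p k)) (c k) ⊆ ball (c k) (R k) :=
  subset_ball_of_sphere cpl_pre (h.cK k) (by simpa using h.hR k)
    (fun _ hy hys => cpl_sub hy (h.HU k (h.hHs k hys)))

/-! ### the position of the components -/

/-- Lemma M -/
theorem memU_of_large {k : ℕ} {z : ℂ} (hz : ‖z‖ < β k) (hfz : α (k + 1) < ‖f z‖) :
    z ∈ FatouComponent f (p k) := by
  set O : Set ℂ := {y | ‖y‖ < β k ∧ α (k + 1) < ‖f y‖} with hO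
  have hOo : IsOpen O := (isOpen_lt continuous_norm continuous_const).inter
    (isOpen_lt continuous_const h.hfc.norm)
  have hzO : z ∈ O := ⟨hz, hfz⟩
  have hOF : O ⊆ FatouSet f := by
    intro y hy
    exact fatou_backward h.hfc (h.BF (k + 1) (h.mem_B.2 ⟨hy.2, h.hup k y hy.1.le⟩))
  set Q := connectedComponentIn O z with hQ
  have hzQ : z ∈ Q := mem_connectedComponentIn hzO
  have hQp : IsPreconnected Q := isPreconnected_connectedComponentIn
  have hQO : Q ⊆ O := connectedComponentIn_subset _ _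
  have hQo : IsOpen Q := hOo.connectedComponentIn
  by_cases hmeet : ∃ y ∈ Q, y ∈ B k
  · obtain ⟨y, hyQ, hyB⟩ := hmeet
    have h1 : Q ⊆ FatouComponent f y :=
      hQp.subset_connectedComponentIn hyQ (hQO.trans hOF)
    rw [comp_eq (h.BU k hyB)]
    exact h1 hzQ
  · exfalso
    push Not at hmeet
    have h1 : ∀ y ∈ Q, ‖y‖ ≤ α k := annulus_split hQp (h.hαβ k) hzQ hz
      (fun y hy h2 => hmeet y hy (h.mem_B.2 h2))
    have h2 : closure Q ⊆ closedBall 0 (α k) :=
      closure_minimal (fun y hy => by simpa using h1 y hy) isClosed_closedBall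
    have hb : Bornology.IsBounded Q := isBounded_closedBall.subset (subset_closure.trans h2)
    have h3 : ‖f z‖ ≤ α (k + 1) := by
      apply Complex.norm_le_of_forall_mem_frontier_norm_le hb h.hf.diffContOnCl _
        (subset_closure hzQ)
      intro y hy
      have h4 : y ∈ closure Q := frontier_subset_closure hy
      have h5 : y ∉ Q := by
        have := hy.2
        rwa [hQo.interior_eq] at this
      have h6 : ‖y‖ < β k := lt_of_le_of_lt (by simpa using h2 h4) (h.hαβ k)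
      by_contra hcon
      push Not at hcon
      exact h5 (comp_of_closure hOo h4 ⟨h6, hcon⟩)
    linarith

/-- Lemma L -/
theorem back {k : ℕ} {z : ℂ} (hz : ‖z‖ < β k) (hfz : f z ∈ FatouComponent f (p (k + 1))) :
    z ∈ FatouComponent f (p k) := by
  have hzF : z ∈ FatouSet f := fatou_backward h.hfc (connectedComponentIn_subset _ _ hfz)
  set V := FatouComponent f z with hV
  have hzV : z ∈ V := mem_connectedComponentIn hzF
  have hVp : IsPreconnected V := isPreconnected_connectedComponentIn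
  by_cases hmeet : ∃ y ∈ V, y ∈ B k
  · obtain ⟨y, hyV, hyB⟩ := hmeet
    rw [← comp_eq_of_mem hyV (h.BU k hyB)]
    exact hzV
  · push Not at hmeet
    have h1 : ∀ y ∈ V, ‖y‖ ≤ α k := annulus_split hVp (h.hαβ k) hzV hz
      (fun y hy h2 => hmeet y hy (h.mem_B.2 h2))
    have hb : Bornology.IsBounded V :=
      isBounded_closedBall.subset (fun y hy => by simpa using h1 y hy : V ⊆ closedBall 0 (α k))
    have h2 : FatouComponent f (p (k + 1)) ⊆ f '' V := by
      apply onto_comp h.hfc h.hopen (isOpen_fatou f) hzF isPreconnected_connectedComponentIn hfz hb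
      intro x _ hx
      exact fatou_backward h.hfc (connectedComponentIn_subset _ _ hx)
    obtain ⟨x, hxV, hxp⟩ := h2 (h.pU (k + 1))
    have h3 : x ∈ FatouComponent f (p k) := by
      apply h.memU_of_large (lt_of_le_of_lt (h1 x hxV) (h.hαβ k))
      rw [hxp]
      exact (h.mem_B.1 (h.hp (k + 1))).1
    rw [← comp_eq_of_mem hxV h3]
    exact hzV

theorem norm_iter {k : ℕ} {z : ℂ} (hz : ‖z‖ < β k) (n : ℕ) : ‖f^[n] z‖ < β (k + n) := by
  induction n with
  | zero => simpa using hz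
  | succ n ih =>
    rw [Function.iterate_succ_apply']
    exact h.hup _ _ ih.le

theorem back_iter {k : ℕ} {z : ℂ} (hz : ‖z‖ < β k) (n : ℕ)
    (hn : f^[n] z ∈ FatouComponent f (p (k + n))) : z ∈ FatouComponent f (p k) := by
  induction n with
  | zero => simpa using hn
  | succ n ih =>
    apply ih
    rw [Function.iterate_succ_apply'] at hn
    exact h.back (h.norm_iter hz n) hn

/-- Disc lemma -/
theorem disc {k : ℕ} {z : ℂ} (hz : ‖z‖ < β k) : z ∉ FatouComponent f (p (k + 1)) := by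
  intro hzU
  by_cases hmeet : ∃ y ∈ FatouComponent f (p (k + 1)), y ∈ B k
  · obtain ⟨y, hyU, hyB⟩ := hmeet
    exact h.Une k (k + 1) (by omega) (comp_eq_of_mem (h.BU k hyB) hyU)
  · push Not at hmeet
    have h1 := annulus_split isPreconnected_connectedComponentIn (h.hαβ k) hzU hz
      (fun y hy h2 => hmeet y hy (h.mem_B.2 h2)) _ (h.pU (k + 1))
    have h2 := (h.mem_B.1 (h.hp (k + 1))).1
    have h3 := h.hβα k
    have h4 := h.hαβ k
    linarith

theorem zero_not_mem (k : ℕ) : (0 : ℂ) ∉ FatouComponent f (p k) := by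
  intro h0
  have h1 := h.UU k h0
  rw [h.hf0] at h1
  refine h.disc (k := k) ?_ h1
  rw [norm_zero]
  linarith [h.hα16 k, h.hαβ k]

theorem norm_le_of_not_mem {k : ℕ} {z : ℂ} (hz : ‖z‖ < β k) (hzU : z ∉ FatouComponent f (p k)) :
    ‖z‖ ≤ α k := by
  by_contra hcon
  push Not at hcon
  exact hzU (h.BU k (h.mem_B.2 ⟨hcon, hz⟩))

theorem cpl_norm {k : ℕ} {z : ℂ} (hz : ‖z‖ < β k) {y : ℂ}
    (hy : y ∈ cpl (FatouComponent f (p k)) z) : ‖y‖ ≤ α k := by
  have hzU : z ∉ FatouComponent f (p k) := by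
    intro hzU
    rw [cpl, connectedComponentIn_eq_empty (by simpa using hzU)] at hy
    exact hy
  exact annulus_split cpl_pre (h.hαβ k) (mem_cpl hzU) hz
    (fun y hy h2 => cpl_sub hy (h.BU k (h.mem_B.2 h2))) y hy

theorem cpl_maps {k : ℕ} {z : ℂ} (hz : ‖z‖ < β k) (hzU : z ∉ FatouComponent f (p k)) (n : ℕ) :
    MapsTo f^[n] (cpl (FatouComponent f (p k)) z)
      (cpl (FatouComponent f (p (k + n))) (f^[n] z)) := by
  have h1 : f^[n] '' cpl (FatouComponent f (p k)) z ⊆
      cpl (FatouComponent f (p (k + n))) (f^[n] z) := by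
    apply sub_cpl (cpl_pre.image _ (h.hfc.iterate n).continuousOn) ⟨z, mem_cpl hzU, rfl⟩
    rintro _ ⟨y, hy, rfl⟩ hyU
    refine cpl_sub hy (h.back_iter (lt_of_le_of_lt (h.cpl_norm hz hy) (h.hαβ k)) n hyU)
  intro y hy
  exact h1 ⟨y, hy, rfl⟩

theorem cβ (k : ℕ) : ‖c k‖ < β k := lt_of_le_of_lt (h.hcα k) (h.hαβ k)

theorem KK (k : ℕ) : MapsTo f (cpl (FatouComponent f (p k)) (c k))
    (cpl (FatouComponent f (p (k + 1))) (c (k + 1))) := by
  intro x hx
  have h1 := h.cpl_maps (h.cβ k) (h.cU k) 1 hx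
  have h2 : f (c k) ∈ cpl (FatouComponent f (p (k + 1))) (c (k + 1)) :=
    h.ΔK _ (h.hΔ k (mem_ball_self (h.hδ0 k)))
  rw [cpl_eq h2]
  exact h1

theorem Kesc (k : ℕ) : EscOn f (cpl (FatouComponent f (p k)) (c k)) :=
  h.esc_of (X := fun k => cpl (FatouComponent f (p k)) (c k)) h.KK
    (fun k z hz => h.hRm k z (h.KR k hz)) k

end

theorem escOn_iter {f : ℂ → ℂ} {n : ℕ} : ∀ {S T : Set ℂ}, EscOn f T → MapsTo f^[n] S T →
    EscOn f S := by
  induction n with
  | zero => intro S T h1 h2; exact h1.mono (fun x hx => h2 hx)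
  | succ n ih =>
    intro S T h1 h2
    have h3 : EscOn f (f '' S) := ih h1 (by
      rintro _ ⟨x, hx, rfl⟩
      have := h2 hx
      rwa [Function.iterate_succ_apply] at this)
    exact h3.preimage (mapsTo_image f S)

section
variable (h : TD f B G H c p δ R α β)
include h

theorem interior_of_open {k : ℕ} {O : Set ℂ} (hO : IsOpen O) {z : ℂ} (hz : z ∈ O)
    (hOU : ∀ y ∈ O, y ∉ FatouComponent f (p k)) :
    z ∈ interior (cpl (FatouComponent f (p k)) z) := by
  obtain ⟨ε, hε, hsub⟩ := Metric.isOpen_iff.1 hO z hz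
  refine mem_interior.2 ⟨ball z ε, ?_, isOpen_ball, mem_ball_self hε⟩
  exact sub_cpl (convex_ball _ _).isPreconnected (mem_ball_self hε)
    (fun y hy => hOU y (hsub hy))

/-- points whose orbit enters the small discs are in components of type 2 -/
theorem type2 {k n : ℕ} {z : ℂ} (hz : ‖z‖ < β k)
    (hn : f^[n] z ∈ ball (c (k + n)) (δ (k + n))) :
    IsType2 f (FatouComponent f (p k)) (cpl (FatouComponent f (p k)) z) ∧
      z ∈ interior (cpl (FatouComponent f (p k)) z) := by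
  have hit := h.iter_maps h.UU k n
  have hzU : z ∉ FatouComponent f (p k) := fun hzU => h.ΔU _ hn (hit hzU)
  have hint : z ∈ interior (cpl (FatouComponent f (p k)) z) := by
    apply h.interior_of_open (O := f^[n] ⁻¹' ball (c (k + n)) (δ (k + n)))
      (isOpen_ball.preimage (h.hfc.iterate n)) hn
    intro y hy hyU
    exact h.ΔU _ hy (hit hyU)
  refine ⟨type2_of_fatou hzU ⟨z, hint⟩ ?_, hint⟩
  have h1 : EscOn f (cpl (FatouComponent f (p k)) z) := by
    apply escOn_iter (h.Kesc (k + n)) (n := n)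
    rw [cpl_eq (h.ΔK _ hn)]
    exact h.cpl_maps hz hzU n
  exact subset_fatou_of_escOn (h1.mono interior_subset) isOpen_interior

theorem β_mono : Monotone β := monotone_nat_of_le_succ (fun k => by
  linarith [h.hβα k, h.hαβ (k + 1)])

theorem exists_julia (m : ℕ) : ∃ y : ℂ, ‖y‖ < β m ∧ y ∉ FatouSet f := by
  have h1 : ‖p 0‖ < β 0 := (h.mem_B.1 (h.hp 0)).2
  have h0 : (0 : ℂ) ∈ ball (0 : ℂ) (β 0) := by
    rw [mem_ball_zero_iff, norm_zero]
    exact lt_of_le_of_lt (norm_nonneg _) h1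
  obtain ⟨y, hy, -, hyf⟩ := exists_frontier (component_isOpen f (p 0))
    (convex_ball (0 : ℂ) (β 0)).isPreconnected h0 (h.zero_not_mem 0)
    (mem_ball_zero_iff.2 h1) (h.pU 0)
  refine ⟨y, lt_of_lt_of_le (mem_ball_zero_iff.1 hy) (h.β_mono (Nat.zero_le m)), fun hF => ?_⟩
  have h2 := closure_comp hF (frontier_subset_closure hyf)
  have h3 := hyf.2
  rw [(component_isOpen f (p 0)).interior_eq] at h3
  exact h3 h2

theorem open_iter (n : ℕ) : ∀ s : Set ℂ, IsOpen s → IsOpen (f^[n] '' s) := by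
  induction n with
  | zero => intro s hs; simpa using hs
  | succ n ih =>
    intro s hs
    rw [Function.iterate_succ', image_comp]
    exact h.hopen _ (ih s hs)

/-- points whose orbit enters the discs of radius `β m` at time `m+1-k` are in components of
type 1 -/
theorem type1 {k n m : ℕ} (hkn : k + n = m + 1) {z : ℂ} (hz : ‖z‖ < β k)
    (hn : ‖f^[n] z‖ < β m) :
    IsType1 f (FatouComponent f (p k)) (cpl (FatouComponent f (p k)) z) ∧
      z ∈ interior (cpl (FatouComponent f (p k)) z) := by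
  have hit := h.iter_maps h.UU k n
  have hitB := h.iter_maps h.hBB k n
  rw [hkn] at hit hitB
  set O : Set ℂ := {y | ‖y‖ < β k ∧ ‖f^[n] y‖ < β m} with hO
  have hcn : Continuous f^[n] := h.hfc.iterate n
  have hOo : IsOpen O := (isOpen_lt continuous_norm continuous_const).inter
    (isOpen_lt hcn.norm continuous_const)
  have hzO : z ∈ O := ⟨hz, hn⟩
  have hOU : ∀ y ∈ O, y ∉ FatouComponent f (p k) := fun y hy hyU => h.disc hy.2 (hit hyU)
  have hint := h.interior_of_open hOo hzO hOU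
  have hzU := hOU z hzO
  refine ⟨⟨⟨z, hzU, rfl⟩, ?_⟩, hint⟩
  set W := connectedComponentIn O z with hW
  have hWo : IsOpen W := hOo.connectedComponentIn
  have hWO : W ⊆ O := connectedComponentIn_subset _ _
  have hWsub : W ⊆ cpl (FatouComponent f (p k)) z :=
    sub_cpl isPreconnected_connectedComponentIn (mem_connectedComponentIn hzO)
      (fun y hy => hOU y (hWO hy))
  have hWα : W ⊆ closedBall 0 (α k) := by
    intro y hy
    rw [mem_closedBall_zero_iff]
    exact h.cpl_norm hz (hWsub hy)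
  have h1 : ball (0 : ℂ) (β m) ⊆ f^[n] '' W := by
    apply onto_comp hcn (h.open_iter n) hOo hzO (convex_ball _ _).isPreconnected
      (by rw [mem_ball_zero_iff]; exact hn) (isBounded_closedBall.subset hWα)
    intro x hx hfx
    have h2 : x ∈ closedBall (0 : ℂ) (α k) := closure_minimal hWα isClosed_closedBall hx
    rw [mem_closedBall_zero_iff] at h2
    exact ⟨lt_of_le_of_lt h2 (h.hαβ k), by simpa using hfx⟩
  obtain ⟨y, hy, hyJ⟩ := h.exists_julia m
  obtain ⟨w, hw, rfl⟩ := h1 (by simpa using hy : y ∈ ball (0 : ℂ) (β m))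
  exact ⟨w, mem_interior.2 ⟨W, hWsub, hWo, hw⟩, fun hF => hyJ (fatou_forward_iter h.hopen hF n)⟩

end

end TD

end Pool.Agent.H30WD
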