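import Pool.Graph.R_seed8.W723.MC.Fin

/-!
Components of the complement of an open set, and the three types of the complementary components of
a Fatou component.
-/

set_option autoImplicit false

open Filter Topology Metric Set

namespace Pool.Agent.H30WD

open Pool.Agent.H384R2.Fatou Pool.Agent.W723.MC

/-- the component of the complement of `V` which contains `z` -/
def cpl (V : Set ℂ) (z : ℂ) : Set ℂ := connectedComponentIn Vᶜ z

variable {V S : Set ℂ} {z w y q u : ℂ}

theorem mem_cpl (h : z ∉ V) : z ∈ cpl V z := mem_connectedComponentIn h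

theorem cpl_sub : cpl V z ⊆ Vᶜ := connectedComponentIn_subset _ _

theorem cpl_eq (h : w ∈ cpl V z) : cpl V z = cpl V w := connectedComponentIn_eq h

theorem cpl_eq_of_mem (h : y ∈ cpl V z) (h' : y ∈ cpl V w) : cpl V z = cpl V w :=
  (cpl_eq h).trans (cpl_eq h').symm

theorem sub_cpl (hS : IsPreconnected S) (hz : z ∈ S) (h : S ⊆ Vᶜ) : S ⊆ cpl V z :=
  hS.subset_connectedComponentIn hz h

theorem cpl_pre : IsPreconnected (cpl V z) := isPreconnected_connectedComponentIn

theorem isClosed_cpl (hV : IsOpen V) : IsClosed (cpl V z) := by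
  by_cases h : z ∈ Vᶜ
  · have h1 : closure (cpl V z) ⊆ cpl V z := by
      apply sub_cpl cpl_pre.closure (subset_closure (mem_cpl h))
      exact closure_minimal cpl_sub hV.isClosed_compl
    exact isClosed_of_closure_subset h1
  · rw [cpl, connectedComponentIn_eq_empty h]
    exact isClosed_empty

/-- a connected set which joins the complement of `V` to `V` contains a boundary point of `V` in the
component of the starting point -/
theorem exists_frontier (hV : IsOpen V) (hS : IsPreconnected S) (hq : q ∈ S) (hqV : q ∉ V)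
    (hu : u ∈ S) (huV : u ∈ V) : ∃ y ∈ S, y ∈ cpl V q ∧ y ∈ frontier V := by
  by_contra hcon
  push Not at hcon
  have key : ∀ y ∈ S, y ∈ cpl V q → y ∈ interior (cpl V q) := by
    intro y hy hyq
    have h1 := hcon y hy hyq
    have h2 : y ∉ V := cpl_sub hyq
    have h3 : y ∉ closure V := fun h => h1 (by
      rw [frontier, hV.interior_eq]; exact ⟨h, h2⟩)
    have h4 : (closure V)ᶜ ∈ 𝓝 y := isClosed_closure.isOpen_compl.mem_nhds h3
    obtain ⟨ε, hε, hsub⟩ := Metric.mem_nhds_iff.1 h4
    have h5 : ball y ε ⊆ cpl V y := sub_cpl (convex_ball _ _).isPreconnected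
      (mem_ball_self hε) (fun x hx hxV => hsub hx (subset_closure hxV))
    rw [← cpl_eq hyq] at h5
    exact mem_interior.2 ⟨_, h5, isOpen_ball, mem_ball_self hε⟩
  have h1 : S ⊆ interior (cpl V q) := by
    apply hS.subset_of_closure_inter_subset isOpen_interior
    · exact ⟨q, hq, key q hq (mem_cpl hqV)⟩
    · rintro y ⟨h2, h3⟩
      refine key y h3 ?_
      have h4 : closure (interior (cpl V q)) ⊆ cpl V q :=
        closure_minimal interior_subset (isClosed_cpl hV)
      exact h4 h2
  exact cpl_sub (interior_subset (h1 hu)) huV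

/-- `K` is a complementary component of `V` -/
def IsComplComp (V K : Set ℂ) : Prop := ∃ z ∈ Vᶜ, K = connectedComponentIn Vᶜ z

/-- the complementary component `K` of `V` is of type 1: its interior contains a point of the Julia
set of `f` -/
def IsType1 (f : ℂ → ℂ) (V K : Set ℂ) : Prop :=
  IsComplComp V K ∧ (interior K ∩ (FatouSet f)ᶜ).Nonempty

/-- the complementary component `K` of `V` is of type 2: its interior is nonempty and a union of
Fatou components of `f` -/
def IsType2 (f : ℂ → ℂ) (V K : Set ℂ) : Prop :=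
  IsComplComp V K ∧ (interior K).Nonempty ∧ ∃ 𝒱 : Set (Set ℂ),
    (∀ W ∈ 𝒱, ∃ z ∈ FatouSet f, W = FatouComponent f z) ∧ interior K = ⋃₀ 𝒱

/-- the complementary component `K` of `V` is of type 3: its interior is empty -/
def IsType3 (V K : Set ℂ) : Prop := IsComplComp V K ∧ interior K = ∅

theorem not_both {f : ℂ → ℂ} {K : Set ℂ} (h1 : IsType1 f V K) (h2 : IsType2 f V K) : False := by
  obtain ⟨-, x, hx, hxJ⟩ := h1
  obtain ⟨-, -, 𝒱, h3, h4⟩ := h2
  rw [h4] at hx
  obtain ⟨W, hW, hxW⟩ := hx
  obtain ⟨z, -, rfl⟩ := h3 W hW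
  exact hxJ (connectedComponentIn_subset _ _ hxW)

/-- a complementary component of a Fatou component whose interior is nonempty and contained in the
Fatou set is of type 2 -/
theorem type2_of_fatou {f : ℂ → ℂ} {p : ℂ} (hz : z ∉ FatouComponent f p)
    (h1 : (interior (cpl (FatouComponent f p) z)).Nonempty)
    (h2 : interior (cpl (FatouComponent f p) z) ⊆ FatouSet f) :
    IsType2 f (FatouComponent f p) (cpl (FatouComponent f p) z) := by
  refine ⟨⟨z, hz, rfl⟩, h1,
    (fun x => FatouComponent f x) '' interior (cpl (FatouComponent f p) z), ?_, ?_⟩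
  · rintro _ ⟨x, hx, rfl⟩
    exact ⟨x, h2 hx, rfl⟩
  · apply Subset.antisymm
    · intro x hx
      exact ⟨_, ⟨x, hx, rfl⟩, mem_connectedComponentIn (h2 hx)⟩
    · rintro x ⟨_, ⟨x', hx', rfl⟩, hx⟩
      have hxU : x' ∉ FatouComponent f p := cpl_sub (interior_subset hx')
      have h3 : FatouComponent f x' ⊆ (FatouComponent f p)ᶜ := by
        intro y hy hyU
        have h5 := comp_eq_of_mem hy hyU
        have h6 : x' ∈ FatouComponent f x' := mem_connectedComponentIn (h2 hx')
        rw [h5] at h6
        exact hxU h6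
      have h4 : FatouComponent f x' ⊆ cpl (FatouComponent f p) z := by
        rw [cpl_eq (interior_subset hx')]
        exact sub_cpl isPreconnected_connectedComponentIn
          (mem_connectedComponentIn (h2 hx')) h3
      exact mem_interior.2 ⟨_, h4, component_isOpen f x', hx⟩

/-- every complementary component of a Fatou component is of exactly one of the three types -/
theorem trichotomy {f : ℂ → ℂ} {p : ℂ} {K : Set ℂ} (hK : IsComplComp (FatouComponent f p) K) :
    IsType1 f (FatouComponent f p) K ∨ IsType2 f (FatouComponent f p) K ∨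
      IsType3 (FatouComponent f p) K := by
  obtain ⟨z, hz, rfl⟩ := hK
  by_cases h1 : (interior (cpl (FatouComponent f p) z)).Nonempty
  · by_cases h2 : interior (cpl (FatouComponent f p) z) ⊆ FatouSet f
    · exact Or.inr (Or.inl (type2_of_fatou hz h1 h2))
    · rw [not_subset] at h2
      obtain ⟨x, hx, hx2⟩ := h2
      exact Or.inl ⟨⟨z, hz, rfl⟩, x, hx, hx2⟩
  · exact Or.inr (Or.inr ⟨⟨z, hz, rfl⟩, not_nonempty_iff_eq_empty.1 h1⟩)

/-- the complementary components with nonempty interior are countably many -/
theorem countable_fat (V : Set ℂ) : {K | IsComplComp V K ∧ (interior K).Nonempty}.Countable := by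
  apply PairwiseDisjoint.countable_of_nonempty_interior (s := id)
  · rintro _ ⟨⟨z, hz, rfl⟩, -⟩ _ ⟨⟨w, hw, rfl⟩, -⟩ hne
    rw [Function.onFun, Set.disjoint_left]
    intro x hx hx'
    exact hne (cpl_eq_of_mem hx hx')
  · rintro K ⟨-, h⟩
    exact h

end Pool.Agent.H30WD
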