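import Pool.Agent.H30WD.Abs2

/-!
Density of the components of type 1 and of type 2, local infinitude, uncountably many components
of type 3.
-/

set_option autoImplicit false

open Filter Topology Metric Set

namespace Pool.Agent.H30WD

open Pool.Agent.H384R2.Fatou Pool.Agent.W723.MC

namespace TD

variable {f : ℂ → ℂ} {B G H : ℕ → Set ℂ} {c p : ℕ → ℂ} {δ R α β : ℕ → ℝ}

section
variable (h : TD f B G H c p δ R α β)
include h

theorem density {k : ℕ} {x : ℂ} (hx : x ∈ frontier (FatouComponent f (p k)))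
    (hxβ : ‖x‖ < β k) {r : ℝ} (hr : 0 < r) {e : ℕ → ℂ} {η : ℕ → ℝ}
    (he : ∀ n, ‖e n‖ ≤ α (k + n)) (hη1 : ∀ n, 1 ≤ η n) (hη2 : ∀ n, η n ≤ α (k + n)) :
    ∃ᶠ n in atTop, ∃ q ∈ ball x r, ‖q‖ < β k ∧ f^[n] q ∈ ball (e n) (η n) := by
  by_contra hcon
  rw [Filter.not_frequently] at hcon
  obtain ⟨r', hr', hsub⟩ : ∃ r', 0 < r' ∧ ball x r' ⊆ ball x r ∩ ball 0 (β k) :=
    Metric.isOpen_iff.1 (isOpen_ball.inter isOpen_ball) x
      ⟨mem_ball_self hr, by simpa using hxβ⟩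
  have hxU : x ∉ FatouComponent f (p k) := by
    have := hx.2
    rwa [(component_isOpen f (p k)).interior_eq] at this
  obtain ⟨q, hq1, hq2⟩ := mem_closure_iff_nhds.1 (frontier_subset_closure hx) _
    (ball_mem_nhds x (half_pos hr'))
  obtain ⟨C, hC, hgc⟩ := growth_compare h.hf (h.pF k) (h.pn k) (h.Besc k) hq2
  obtain ⟨n, hn1, hn2, hn3⟩ := ((h.hsep k (16 * C)).and_eventually (hgc.and hcon)).exists
  have hA : 16 ≤ α (k + n) := h.hα16 _
  set A := α (k + n) with hAdef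
  have h1 : ‖f^[n] x‖ ≤ A :=
    h.norm_le_of_not_mem (h.norm_iter hxβ n) (fun hU => hxU (h.back_iter hxβ n hU))
  have h2 : A ≤ 4 * ‖f^[n] (c k)‖ :=
    h.hΔm _ _ (h.iter_maps (X := fun k => ball (c k) (δ k)) h.hΔ k n (mem_ball_self (h.hδ0 k)))
  have hη0 : 0 < η n := by linarith [hη1 n]
  have hgn : ∀ q : ℂ, ‖2 * (f^[n] q - e n) / (η n : ℂ)‖ = 2 * ‖f^[n] q - e n‖ / η n := by
    intro q
    rw [norm_div, norm_mul, Complex.norm_real, Real.norm_eq_abs, abs_of_pos hη0]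
    norm_num
  have hlow : ∀ w ∈ ball x r', 1 < ‖2 * (f^[n] w - e n) / (η n : ℂ)‖ := by
    intro w hw
    rw [hgn, lt_div_iff₀ hη0, one_mul]
    have h3 := hsub hw
    have h4 : f^[n] w ∉ ball (e n) (η n) := fun hb => hn3 ⟨w, h3.1, by simpa using h3.2, hb⟩
    rw [mem_ball, dist_eq_norm, not_lt] at h4
    linarith
  have hd : DifferentiableOn ℂ (fun q => 2 * (f^[n] q - e n) / (η n : ℂ)) (ball x r') := by
    apply Differentiable.differentiableOn
    have := h.hf.iterate n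
    exact ((this.sub_const _).const_mul _).div_const _
  have hh := harnack_half hr' hd hlow (z := q) (t := 1 / 2) (by norm_num)
    (by rw [mem_ball] at hq1; linarith) (by norm_num)
  norm_num at hh
  rw [abs_of_pos hη0] at hh
  set X := 2 * ‖f^[n] q - e n‖ / η n with hX
  set Y := 2 * ‖f^[n] x - e n‖ / η n with hY
  have hqb : q ∈ ball x r' := ball_subset_ball (by linarith) hq1
  have hX1 : 1 < X := by
    have := hlow q hqb
    rwa [hgn] at this
  have hY1 : 1 < Y := by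
    have := hlow x (mem_ball_self hr')
    rwa [hgn] at this
  have hYA : Y ≤ A ^ 2 := by
    have h5 : ‖f^[n] x - e n‖ ≤ 2 * A := by
      have := norm_sub_le (f^[n] x) (e n)
      have := he n
      linarith
    rw [hY, div_le_iff₀ hη0]
    have h6 := hη1 n
    nlinarith
  have hXA : X ≤ A ^ 6 := by
    have h5 : Real.log Y ≤ 2 * Real.log A := by
      have := Real.log_le_log (by linarith) hYA
      rw [Real.log_pow] at this
      exact_mod_cast this
    have h6 : Real.log X ≤ Real.log (A ^ 6) := by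
      rw [Real.log_pow]
      push_cast
      linarith
    exact (Real.log_le_log_iff (by linarith) (by positivity)).1 h6
  have hA0 : 0 < A := by linarith
  have hqA : ‖f^[n] q‖ ≤ A ^ 7 := by
    have h5 : ‖f^[n] q‖ ≤ ‖f^[n] q - e n‖ + ‖e n‖ := by
      simpa using norm_add_le (f^[n] q - e n) (e n)
    have h6 := he n
    have h7 : 2 * ‖f^[n] q - e n‖ ≤ A ^ 6 * η n := by
      rwa [hX, div_le_iff₀ hη0] at hXA
    have h8 : A ^ 6 * η n ≤ A ^ 6 * A := by
      have := hη2 n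
      gcongr
    have h9 : 2 * A ≤ A ^ 7 := by
      calc 2 * A ≤ A ^ 6 * A := by
            have : (2 : ℝ) ≤ A ^ 6 := by
              calc (2 : ℝ) ≤ 16 ^ 6 := by norm_num
                _ ≤ A ^ 6 := by gcongr
            gcongr
        _ = A ^ 7 := by ring
    have h10 : A ^ 6 * A = A ^ 7 := by ring
    linarith
  have hlA : 0 < Real.log A := Real.log_pos (by linarith)
  have hlq : Real.log ‖f^[n] q‖ ≤ 7 * Real.log A := by
    have hq0 : f^[n] q ≠ 0 := by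
      intro h0
      have := h.iter_maps h.UU k n hq2
      rw [h0] at this
      exact h.zero_not_mem _ this
    have := Real.log_le_log (norm_pos_iff.2 hq0) hqA
    rw [Real.log_pow] at this
    exact_mod_cast this
  have hlc : Real.log A ≤ 2 * Real.log ‖f^[n] (c k)‖ := by
    have h5 : A ≤ ‖f^[n] (c k)‖ ^ 2 := by nlinarith
    have := Real.log_le_log hA0 h5
    rw [Real.log_pow] at this
    exact_mod_cast this
  have h20 : C * Real.log ‖f^[n] q‖ ≤ C * (7 * Real.log A) := by gcongr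
  have h21 : C * (7 * Real.log A) ≤ C * (7 * (2 * Real.log ‖f^[n] (c k)‖)) := by gcongr
  have h22 : 0 ≤ C * Real.log ‖f^[n] (c k)‖ := by
    have : 0 ≤ Real.log ‖f^[n] (c k)‖ := by linarith
    positivity
  linarith [hn2.2]

theorem dense2 {k : ℕ} {x : ℂ} (hx : x ∈ frontier (FatouComponent f (p k)))
    (hxβ : ‖x‖ < β k) {r : ℝ} (hr : 0 < r) :
    ∃ q ∈ ball x r, IsType2 f (FatouComponent f (p k)) (cpl (FatouComponent f (p k)) q) ∧
      q ∈ interior (cpl (FatouComponent f (p k)) q) := by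
  obtain ⟨n, q, hq, hqβ, hqn⟩ := (h.density hx hxβ hr (e := fun n => c (k + n))
    (η := fun n => δ (k + n)) (fun n => h.hcα _) (fun n => h.hδ _) (fun n => h.hδα _)).exists
  exact ⟨q, hq, h.type2 hqβ hqn⟩

theorem dense1 {k : ℕ} {x : ℂ} (hx : x ∈ frontier (FatouComponent f (p k)))
    (hxβ : ‖x‖ < β k) {r : ℝ} (hr : 0 < r) :
    ∃ q ∈ ball x r, IsType1 f (FatouComponent f (p k)) (cpl (FatouComponent f (p k)) q) ∧
      q ∈ interior (cpl (FatouComponent f (p k)) q) := by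
  obtain ⟨n, ⟨q, hq, hqβ, hqn⟩, hn⟩ := ((h.density hx hxβ hr (e := fun n => 0)
    (η := fun n => 1) (fun n => by rw [norm_zero]; linarith [h.hα16 (k + n)]) (fun n => le_rfl)
    (fun n => by linarith [h.hα16 (k + n)])).and_eventually (eventually_ge_atTop 1)).exists
  obtain ⟨m, rfl⟩ : ∃ m, n = m + 1 := ⟨n - 1, by omega⟩
  refine ⟨q, hq, h.type1 (n := m + 1) (m := k + m) (by ring) hqβ ?_⟩
  rw [mem_ball_zero_iff] at hqn
  linarith [h.hα16 (k + m), h.hαβ (k + m)]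

end

end TD

/-! ### from density to infinitude and uncountability -/

section
variable {V D : Set ℂ} {P Q : Set ℂ → Prop}

theorem not_mem_of_frontier (hV : IsOpen V) {x : ℂ} (hx : x ∈ frontier V) : x ∉ V := by
  have := hx.2
  rwa [hV.interior_eq] at this

theorem exists_small (hD : IsOpen D) {x : ℂ} (hxD : x ∈ D) {r : ℝ} (hr : 0 < r) :
    ∃ r', 0 < r' ∧ ball x r' ⊆ ball x r ∩ D :=
  Metric.isOpen_iff.1 (isOpen_ball.inter hD) x ⟨mem_ball_self hr, hxD⟩

theorem infinite_near (hV : IsOpen V) (hD : IsOpen D)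
    (hPc : ∀ K, P K → IsComplComp V K) (hPQ : ∀ K, P K → Q K → False)
    (hP : ∀ x ∈ frontier V, x ∈ D → ∀ r : ℝ, 0 < r → ∃ q ∈ ball x r, P (cpl V q) ∧
      q ∈ interior (cpl V q))
    (hQ : ∀ x ∈ frontier V, x ∈ D → ∀ r : ℝ, 0 < r → ∃ q ∈ ball x r, Q (cpl V q) ∧
      q ∈ interior (cpl V q))
    {x : ℂ} (hx : x ∈ frontier V) (hxD : x ∈ D) {r : ℝ} (hr : 0 < r) :
    {K | P K ∧ (interior K ∩ ball x r).Nonempty}.Infinite := by
  intro hfin
  obtain ⟨r', hr', hsub⟩ := exists_small hD hxD hr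
  obtain ⟨q, hq, hqQ, hqi⟩ := hQ x hx hxD r' hr'
  obtain ⟨u, hu1, hu2⟩ := mem_closure_iff_nhds.1 (frontier_subset_closure hx) _
    (ball_mem_nhds x hr')
  have hqV : q ∉ V := cpl_sub (interior_subset hqi)
  obtain ⟨y, hy1, hy2, hy3⟩ := exists_frontier hV (convex_ball x r').isPreconnected hq hqV hu1 hu2
  set T : Set ℂ := ⋃ K ∈ {K | P K ∧ (interior K ∩ ball x r).Nonempty}, K with hT
  have hTc : IsClosed T := by
    apply hfin.isClosed_biUnion
    rintro K ⟨hK, -⟩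
    obtain ⟨z, -, rfl⟩ := hPc K hK
    exact isClosed_cpl hV
  have hyT : y ∉ T := by
    intro hyT
    simp only [hT, mem_iUnion, exists_prop] at hyT
    obtain ⟨K, ⟨hK, -⟩, hyK⟩ := hyT
    obtain ⟨z, -, rfl⟩ := hPc K hK
    have : cpl V z = cpl V q := cpl_eq_of_mem hyK hy2
    change P (cpl V z) at hK
    rw [this] at hK
    exact hPQ _ hK hqQ
  obtain ⟨ε, hε, hsub2⟩ := Metric.isOpen_iff.1 (isOpen_ball.inter hTc.isOpen_compl) y
    ⟨(hsub hy1).1, hyT⟩
  obtain ⟨q', hq', hP', hi'⟩ := hP y hy3 (hsub hy1).2 ε hε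
  apply (hsub2 hq').2
  simp only [hT, mem_iUnion, exists_prop]
  exact ⟨cpl V q', ⟨hP', q', hi', (hsub2 hq').1⟩, interior_subset hi'⟩

theorem uncountable_near (hV : IsOpen V) (hD : IsOpen D)
    (hPQ : ∀ K, P K → Q K → False)
    (hP : ∀ x ∈ frontier V, x ∈ D → ∀ r : ℝ, 0 < r → ∃ q ∈ ball x r, P (cpl V q) ∧
      q ∈ interior (cpl V q))
    (hQ : ∀ x ∈ frontier V, x ∈ D → ∀ r : ℝ, 0 < r → ∃ q ∈ ball x r, Q (cpl V q) ∧
      q ∈ interior (cpl V q))
    {x : ℂ} (hx : x ∈ frontier V) (hxD : x ∈ D) {r : ℝ} (hr : 0 < r) :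
    ¬ {K | IsType3 V K ∧ (K ∩ (ball x r ∩ D)).Nonempty}.Countable := by
  intro hcount
  set 𝒦 : Set (Set ℂ) := {K | IsComplComp V K ∧ (K ∩ (ball x r ∩ D)).Nonempty} with h𝒦
  have h𝒦c : 𝒦.Countable := by
    refine (hcount.union (countable_fat V)).mono ?_
    rintro K ⟨hK1, hK2⟩
    by_cases hi : (interior K).Nonempty
    · exact Or.inr ⟨hK1, hi⟩
    · exact Or.inl ⟨⟨hK1, not_nonempty_iff_eq_empty.1 hi⟩, hK2⟩
  set Y : Set ℂ := frontier V ∩ (ball x r ∩ D) with hY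
  have hYl : IsLocallyClosed Y :=
    isClosed_frontier.isLocallyClosed.inter (isOpen_ball.inter hD).isLocallyClosed
  have : LocallyCompactSpace Y := hYl.locallyCompactSpace
  have : Nonempty Y := ⟨⟨x, hx, mem_ball_self hr, hxD⟩⟩
  have : Countable 𝒦 := h𝒦c.to_subtype
  have hcl : ∀ K : 𝒦, IsClosed ((Subtype.val : Y → ℂ) ⁻¹' K.1) := by
    rintro ⟨K, ⟨z, -, rfl⟩, -⟩
    exact (isClosed_cpl hV).preimage continuous_subtype_val
  have hun : ⋃ K : 𝒦, ((Subtype.val : Y → ℂ) ⁻¹' K.1) = univ := by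
    refine eq_univ_of_forall ?_
    rintro ⟨y, hy1, hy2⟩
    have hyV := not_mem_of_frontier hV hy1
    exact mem_iUnion.2 ⟨⟨cpl V y, ⟨y, hyV, rfl⟩, y, mem_cpl hyV, hy2⟩, mem_cpl hyV⟩
  obtain ⟨⟨K, hK𝒦⟩, y, hyint⟩ := nonempty_interior_of_iUnion_of_closed hcl hun
  obtain ⟨z, hz, hKz⟩ := hK𝒦.1
  simp only [hKz] at hyint
  obtain ⟨ε, hε, hsub⟩ := Metric.isOpen_iff.1 isOpen_interior y hyint
  have hYK : ∀ w ∈ Y, dist w y < ε → w ∈ cpl V z := by
    intro w hw hwε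
    have h1 : (⟨w, hw⟩ : Y) ∈ ball y ε := hwε
    have h2 : (⟨w, hw⟩ : Y) ∈ (Subtype.val : Y → ℂ) ⁻¹' connectedComponentIn Vᶜ z :=
      interior_subset (hsub h1)
    exact h2
  obtain ⟨hyf, hyD⟩ := y.2
  have hop : IsOpen (ball (y : ℂ) ε ∩ (ball x r ∩ D)) := isOpen_ball.inter (isOpen_ball.inter hD)
  obtain ⟨ε', hε', hsub'⟩ := Metric.isOpen_iff.1 hop (y : ℂ) ⟨mem_ball_self hε, hyD⟩
  obtain ⟨u, hu1, hu2⟩ := mem_closure_iff_nhds.1 (frontier_subset_closure hyf) _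
    (ball_mem_nhds (y : ℂ) hε')
  have key : ∀ q ∈ ball (y : ℂ) ε', q ∉ V → cpl V z = cpl V q := by
    intro q hq hqV
    obtain ⟨w, hw1, hw2, hw3⟩ := exists_frontier hV (convex_ball (y : ℂ) ε').isPreconnected
      hq hqV hu1 hu2
    have hw4 := hsub' hw1
    exact cpl_eq_of_mem (hYK w ⟨hw3, hw4.2⟩ hw4.1) hw2
  obtain ⟨q1, hq1, hP1, hi1⟩ := hP y hyf hyD.2 ε' hε'
  obtain ⟨q2, hq2, hQ2, hi2⟩ := hQ y hyf hyD.2 ε' hε'
  have e1 := key q1 hq1 (cpl_sub (interior_subset hi1))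
  have e2 := key q2 hq2 (cpl_sub (interior_subset hi2))
  rw [← e1] at hP1
  rw [← e2] at hQ2
  exact hPQ _ hP1 hQ2

end

end Pool.Agent.H30WD
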