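import Pool.Agent.H30WD.Dens

/-!
The concrete function.
-/

set_option autoImplicit false

open Filter Topology Metric Set

namespace Pool.Agent.H30WD

open Pool.Agent.H384R2.Fatou Pool.Agent.W723.MC

theorem ff_zero : ff 0 = 0 := by
  unfold ff
  simp

theorem td : TD ff Bs Gs Hs cc pp del Rad (fun k => 2 * aa k) RR where
  hf := ff_differentiable
  hopen := ff_open
  hf0 := ff_zero
  hα := aa_tendsto.const_mul_atTop (by norm_num)
  hα16 := fun k => by linarith [aa_one k]
  hB := fun k => rfl
  hαβ := fun k => by linarith [ten_le_RR k, aa_pos k]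
  hβα := fun k => by linarith [RR_le k, aa_pos (k + 1)]
  hBB := Bs_maps
  hBG := fun k => subset_union_right
  hGc := Gs_preconnected
  hGB := Gs_maps
  hp := pp_Bs
  hHc := Hs_preconnected
  hHs := fun k => subset_union_left
  hHG := Hs_meet
  hHf := Hs_maps
  hδ := fun k => by
    have h1 := aa_big k
    have h2 := dd_real k
    have h3 : (1 : ℝ) ≤ (dd k : ℝ) ^ 76 := one_le_pow₀ (by linarith)
    have h4 : (0 : ℝ) < (dd k : ℝ) ^ 4 := by positivity
    have h5 : (dd k : ℝ) ^ 80 = (dd k : ℝ) ^ 76 * (dd k : ℝ) ^ 4 := by ring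
    rw [del, mul_one_div, le_div_iff₀ (by positivity)]
    nlinarith
  hδα := fun k => by linarith [del_le k, aa_pos k]
  hcα := fun k => by rw [norm_cc]; linarith [aa_pos k]
  hR := fun k => by
    have := aa_pos k
    have := dd_pos k
    have := rho_pos k
    rw [Rad]; positivity
  hΔ := del_maps
  hΔm := fun k z hz => by linarith [half_lower (del_le k) hz]
  hRm := fun k z hz => by linarith [half_lower (Rad_le k) hz]
  hpo := pp_not_mem
  hup := fun k z hz => est_upper hz
  hsep := sep1
  hsep2 := sep2

end Pool.Agent.H30WD
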